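import Pool.Agent.W5h86.MU.Fam

/-!
# Murre's conjectures for all motives and conjecture (D) in families

`𝒱` is a class of smooth projective varieties over `k` which is closed under products and contains
a curve of positive genus; `C` is the theory of Chow groups with rational coefficients and `H` is a
Weil cohomology theory. The following are equivalent:

1. Murre's conjectures (A), (B), (C), (D) hold for all motives `(X, p, n)`, `X` in `𝒱`;
2. (A) holds for all varieties of `𝒱`, and (D) holds in families over all bases in `𝒱`, for all
   Chow-Kunneth decompositions;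
3. there is a system of Chow-Kunneth decompositions, closed under products and duals and with at
   least one decomposition for each variety `X` of `𝒱`, which satisfies (D) in families over the
   base `X`: if `z ∈ CH^i(X × X)` is homologically trivial on the fibres then `π_(2i) ∘ z = 0`.
-/

set_option autoImplicit false

open CategoryTheory AlgebraicGeometry

universe u v w

namespace Pool.Agent.Results.MP_38de51_ag.DInFamilies

open Pool.Agent.H914 Pool.Agent.H914.VarClass Pool.Agent.H914.VarClass.Obj Pool.Agent.W492.BB Pool.Agent.TH133 Pool.Agent.W5h86.MU

/-- Murre's conjectures for all motives are equivalent to (A) for varieties and (D) in families. -/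
theorem result {k : Type u} [Field k] {𝒱 : VarClass k} (C : TheoryData.{u, v, 0} 𝒱 ℚ)
    [IsChowProj C] {K : Type w} [Field K] (H : WeilTheoryData.{u, v, w} C K) [IsWeilProj H]
    (hE : HasPositiveGenusCurve C) :
    List.TFAE [MurreAll H,
      VarietyA H ∧ ∀ (B X : 𝒱.Obj) (π : ℕ → C.A (X.prod X)), IsCK H X π → FamilyD H B π,
      ∃ 𝒮 : ∀ X : 𝒱.Obj, (ℕ → C.A (X.prod X)) → Prop, IsSystem H 𝒮 ∧
        ∀ (X : 𝒱.Obj) (π : ℕ → C.A (X.prod X)), 𝒮 X π → FamilyD H X π] :=
  murreAll_tfae hE

end Pool.Agent.Results.MP_38de51_ag.DInFamilies
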