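import Pool.Agent.W5h77.MQ.Main

/-!
# Murre's conjectures and diagonal quotients

Let the finite group `G` act on the smooth projective variety `X`, let `Q_n = X^(n+1)/G` be the
quotients by the diagonal action, `N` any integer, and `S` a subgroup of `G` which contains all
elements `g` such that the conjugation by `g` is trivial, modulo numerical equivalence, on the
self-correspondences of degree zero of all powers of `X`. Murre's conjectures (A)-(D) hold for the
quotients `Q_n` and `Q_n × Q_n` for all `n ≥ N` if and only if they hold for all direct factors of
the motives of the quotients `X^(n+1)/S` and all their twists.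

The hypothesis on `S` holds for the centre of `G` as soon as the graphs of the elements `g ≠ 1` are
not numerically equivalent to the diagonal. So if `G` also has trivial centre, then Murre's
conjectures for the varieties `Q_n` and `Q_n × Q_n`, `n ≥ N`, are equivalent to Murre's conjectures
for all motives `(X^(n+1), p, l)`.

Proof. The functions `g ↦ deg (z · g^* w)` on `G`, for cycles `z`, `w` of complementary
codimension on the powers `P` of `X`, are closed under products, and
under certain affine changes for self-correspondences of degree zero; a product of such functions
is zero exactly at the elements which move some self-correspondence, and one elsewhere. Hence there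
are `z`, `w` on a large power `P` such that `x ↦ ∑_g g (x × z)` and `y ↦ pr_* (y · (X^(n+1) × w))`
compose to a nonzero multiple of the identity on the direct factors of the motive of `X^(n+1)/S`:
they are direct factors of a twist of the motive of `(X^(n+1) × P)/G`. Finally
(A)-(D) for a self-dual motive `M` and for `M ⊗ M` imply (A)-(D) for the direct factors of `M`: by
(C) the product decomposition of `M ⊗ M` satisfies (B) and (D), so that homologically trivial
endomorphisms of `M` strictly lower the weights, and the endomorphisms of `M` do not raise them.
-/

set_option autoImplicit false

open CategoryTheory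

universe u v w

namespace Pool.Agent.Results.MP_38de51_ag.DiagonalQuotients

open Pool.Agent.H914 Pool.Agent.W492.BB Pool.Agent.TH133 Pool.Agent.W5h77.MQ

/-- **Murre's conjectures and diagonal quotients.** -/
theorem result {k : Type u} [Field k] {𝒱 : VarClass k} {C : TheoryData.{u, v, 0} 𝒱 ℚ}
    [IsChowProj C] {K : Type w} [Field K] (H : WeilTheoryData.{u, v, w} C K) [IsWeilProj H]
    {X : 𝒱.Obj} {G : Type} [Group G] [Finite G] {m : G → (X ⟶ X)} (hm : IsAction m) (N : ℕ) :
    (∀ S : Subgroup G, (∀ g ∉ S, Moves C m g) → (MurreQuotients H m N ↔ MurreFactors H m S)) ∧
    ((∀ g ≠ 1, Visible C m g) →
      (MurreQuotients H m N ↔ MurreFactors H m (Subgroup.center G))) ∧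
    ((∀ g ≠ 1, Visible C m g) → Subgroup.center G = ⊥ →
      (MurreQuotients H m N ↔ MurrePowers H X)) :=
  final hm N

end Pool.Agent.Results.MP_38de51_ag.DiagonalQuotients
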