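import Pool.Agent.W5h93.WC.MurreMain

/-!
# Murre's conjectures and the cubic hypersurfaces `T(x, y, z) = 1`

Let `𝒜` be the category of Chow motives over the field `k` with rational coefficients, `T l` its Tate
objects, `h(X)` the motive of `X` and `H_j` a Weil homology theory (`IsHomology`: `T l` has homology in
degree `2 l`, the Künneth formula and duality for motives with homology in one degree, and the tensor
product of a homologically trivial morphism with an identity is homologically trivial). The elements of
`CH_l(M)` are the morphisms `T l → M`. To every separated scheme `X` of finite type over `k` belongs its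
weight complex with compact support `W(X)` (Gillet and Soulé, Bondarko), a complex of Chow motives up to
homotopy (`IsWeightComplex`: triangles for closed-open decompositions, affine bundles, the torus and the
point). For smooth projective `X` it is the motive `h(X)` in degree zero.

By Jannsen, Murre's conjectures (A), (B), (C), (D) for all motives are equivalent to the statement
that every motive `M` has a Chow-Künneth decomposition `M = ⨁ M_i` such that for all motives `N` with
homology only in degree `j` there are no nonzero morphisms `N → M_i` for `i < j` and no nonzero
homologically trivial morphisms `N → M_j`. We call these `M` strong Murre motives (`Strong`). They are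
closed under direct summands: this is proved here by a triangular construction of projectors, which
needs no finite-dimensionality. Therefore it makes sense to ask if a complex of motives is contractible
modulo the morphisms which factor through strong Murre motives (`Null`).

We show that Murre's conjectures for all motives over the perfect field `k` are equivalent to the
statement that the weight complexes of the smooth affine cubic hypersurfaces `T(x, y, z) = 1`, for all
trilinear forms `T` over `k`, are contractible in this sense. Over a prime field the forms
`T = ∑_{(i, j, l) ∈ H} x_i y_j z_l` of all tripartite hypergraphs `H` are enough. In the same way the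
strong form of the conjectures for the motives of dimension at most `n` (with `N` of dimension at most
`n`) follows from the statement for the forms `T` which have a block of at most `n + 2` variables, and
it is equivalent to it if there is resolution of singularities in dimension at most `n`.
-/

set_option autoImplicit false

open CategoryTheory Limits MonoidalCategory AlgebraicGeometry Pool.Agent.Y116.UV
  Pool.Agent.W5h93.EV Pool.Agent.W5h93.EX Pool.Agent.W5h93.WC

universe v u v' u'

namespace Pool.Agent.Results.MP_38de51_ag.MurreCubics

/-- **Murre's conjectures and the weight complexes of the hypersurfaces `T(x, y, z) = 1`.** -/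
theorem result {k : Type} [Field k] [PerfectField k] {𝒜 : Type u} [Category.{v} 𝒜] [Preadditive 𝒜]
    [HasZeroObject 𝒜] [HasBinaryBiproducts 𝒜] [IsIdempotentComplete 𝒜] [MonoidalCategory 𝒜]
    [MonoidalPreadditive 𝒜] [RightRigidCategory 𝒜] {𝒢 : Type u'} [Category.{v'} 𝒢] [Preadditive 𝒢]
    {T : ℤ → 𝒜} (hT : IsTate T) {H : ℤ → 𝒜 ⥤ 𝒢} (hH : IsHomology T H)
    {W : Sch k → HomotopyCategory 𝒜 (ComplexShape.up ℤ)} (hW : IsWeightComplex T W)
    {Q : Sch k → Prop} (hQ : IsClass Q) (hpt : Q (aff k k)) {h : Sch k → 𝒜}
    (hh : ∀ X, Q X → Nonempty (W X ≅ cpx (h X))) (hG : ∀ M, Gen T h Q M) :
    ((∀ M, Murre T H M) ↔ ∀ F : Form k, Null (Strong H fun _ => True) (W F.hyp).as) ∧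
    (IsPrimeField k → ((∀ M, Murre T H M) ↔
      ForHypergraphs k fun X => Null (Strong H fun _ => True) (W X).as)) ∧
    ∀ n : ℕ, (ForForms (fun X => Null (Strong H (DimGen T h Q n)) (W X).as) (n + 2) →
        ∀ M, DimGen T h Q n M → Strong H (DimGen T h Q n) M) ∧
      (ModelsIn Q n → ((∀ M, DimGen T h Q n M → Strong H (DimGen T h Q n) M) ↔
        ForForms (fun X => Null (Strong H (DimGen T h Q n)) (W X).as) (n + 2))) :=
  ⟨(murre_all hT hH hW hQ hh hG).1, (murre_all hT hH hW hQ hh hG).2,
    fun n => ⟨murre_dim hT hH hW hQ hh n, murre_dim_iff hT hH hW hQ hh hpt n⟩⟩

end Pool.Agent.Results.MP_38de51_ag.MurreCubics
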