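import Pool.Agent.W5h69.TR.Murre

/-!
# Murre's conjectures and torus actions of complexity at most `n`

Let `𝒜` be the category of Chow motives over the field `k` with rational coefficients, `T l` its Tate
objects, `h(X)` the motive of `X` and `H_j` a Weil homology theory (`IsHomology`). The elements of
`CH_l(M)` are the morphisms `T l → M`. To every separated scheme `X` of finite type over `k` belongs its
weight complex with compact support `W(X)` (Gillet and Soulé, Bondarko), a complex of Chow motives up to
homotopy (`IsWeightComplex`: triangles for closed-open decompositions, affine bundles, the torus and the
point). For smooth projective `X` it is the motive `h(X)` in degree zero.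

By Jannsen, Murre's conjectures (A), (B), (C), (D) for all motives are equivalent to the statement
that every motive `M` has a Chow-Künneth decomposition `M = ⨁ M_i` such that for all motives `N` with
homology only in degree `j` there are no nonzero morphisms `N → M_i` for `i < j` and no nonzero
homologically trivial morphisms `N → M_j`. In the strong form in dimension at most `n` both `M` and `N`
are motives of dimension at most `n` (`DimGen`), and these `M` are called strong Murre motives
(`Strong`). A complex of motives is `Null` if it is contractible modulo the morphisms which factor
through strong Murre motives.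

Let `X` be a closed subscheme of an affine space which is stable under a torus acting diagonally. It is
of complexity at most `n` if each stratum of `X` (given by the vanishing and non-vanishing of the
coordinates) has dimension at most `n` plus the dimension of the orbits in the stratum. There is no
restriction on the dimension of `X` and on its singularities.

We show that the strong form of Murre's conjectures for the motives of dimension at most `n` over a
perfect field `k` follows from the statement that the weight complexes of all torus schemes of complexity
at most `n`, and of all schemes built from them by closed-open decompositions, are null, and that it is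
equivalent to it if there is resolution of singularities in dimension at most `n`. Explicit members of
this class are the schemes given by `c` linearly independent equations with at most `c + n + 1` monomials
altogether, also with additional equations with two terms, and the inverse images of the cones of
dimension at most `n + 1` under the monomial maps between affine spaces.

The theorem on torus actions is due to helper38, the systems in few monomials to helper38 and helper68,
the weight complexes and strong Murre motives to helper93 (`MP_38de51_ag/MurreCubics`).
-/

set_option autoImplicit false

open CategoryTheory Limits MonoidalCategory AlgebraicGeometry Pool.Agent.Y116.UV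
  Pool.Agent.W5h93.EV Pool.Agent.W5h93.EX Pool.Agent.W5h93.WC Pool.Agent.W5h69.TR
  Pool.Agent.W5h38.TV Pool.Agent.W5h68.SP

universe v u v' u'

namespace Pool.Agent.Results.MP_38de51_ag.TorusActions

/-- **Murre's conjectures and torus actions of complexity at most `n`.** -/
theorem result {k : Type} [Field k] [PerfectField k] {𝒜 : Type u} [Category.{v} 𝒜] [Preadditive 𝒜]
    [HasZeroObject 𝒜] [HasBinaryBiproducts 𝒜] [IsIdempotentComplete 𝒜] [MonoidalCategory 𝒜]
    [MonoidalPreadditive 𝒜] [RightRigidCategory 𝒜] {𝒢 : Type u'} [Category.{v'} 𝒢] [Preadditive 𝒢]
    {T : ℤ → 𝒜} (hT : IsTate T) {H : ℤ → 𝒜 ⥤ 𝒢} (hH : IsHomology T H)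
    {W : Sch k → HomotopyCategory 𝒜 (ComplexShape.up ℤ)} (hW : IsWeightComplex T W)
    {Q : Sch k → Prop} (hQ : IsClass Q) (hpt : Q (aff k k)) {h : Sch k → 𝒜}
    (hh : ∀ X, Q X → Nonempty (W X ≅ cpx (h X))) (n : ℕ) :
    ((∀ X : Sch k, Built n X → Null (Strong H (DimGen T h Q n)) (W X).as) →
      ∀ M, DimGen T h Q n M → Strong H (DimGen T h Q n) M) ∧
    (ModelsIn Q n →
      ((∀ M, DimGen T h Q n M → Strong H (DimGen T h Q n) M) ↔
        ∀ X : Sch k, Built n X → Null (Strong H (DimGen T h Q n)) (W X).as) ∧
      ((∀ M, DimGen T h Q n M → Strong H (DimGen T h Q n) M) →
        Cones n (fun X : Sch k => Null (Strong H (DimGen T h Q n)) (W X).as) ∧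
        Sparse n (fun X : Sch k => Null (Strong H (DimGen T h Q n)) (W X).as))) := by
  refine ⟨murre_torus hT hH hW hQ hh n, fun hM => ?_⟩
  have h1 := murre_torus_iff hT hH hW hQ hh hpt n hM
  exact ⟨h1, fun h2 =>
    ⟨fun m N r t g α b hg hd hb => h1.mp h2 _ (cones_built n m N r t g α b hg hd hb),
      fun N c t f S b hf hS hc hb => h1.mp h2 _ (sparse_built n N c t f S b hf hS hc hb)⟩⟩

end Pool.Agent.Results.MP_38de51_ag.TorusActions
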